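import Pool.Agent.Helper1.RG.Defs

/-! Project RG, row F2: numbers. -/

set_option autoImplicit false

namespace Pool.Agent.Helper61.RG

open Pool.Agent.Helper1.RG

/-- the sizes -/
noncomputable def f2X (n₀ i : ℕ) : ℕ := ⌈Real.exp ((2 : ℝ) ^ (n₀ + i) / 500)⌉₊

theorem f2X_ge (n₀ i : ℕ) : Real.exp ((2 : ℝ) ^ (n₀ + i) / 500) ≤ (f2X n₀ i : ℝ) := Nat.le_ceil _

theorem f2X_le (n₀ i : ℕ) : (f2X n₀ i : ℝ) ≤ 2 * Real.exp ((2 : ℝ) ^ (n₀ + i) / 500) := by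
  have h1 : (f2X n₀ i : ℝ) < Real.exp ((2 : ℝ) ^ (n₀ + i) / 500) + 1 :=
    Nat.ceil_lt_add_one (Real.exp_pos _).le
  have h2 : (1 : ℝ) ≤ Real.exp ((2 : ℝ) ^ (n₀ + i) / 500) := by
    apply Real.one_le_exp
    positivity
  linarith

theorem f2_sq (n₀ i : ℕ) : (5 * (f2X n₀ i : ℝ)) ^ 2 ≤
    100 * Real.exp (2 * (2 : ℝ) ^ (n₀ + i) / 500) := by
  have h1 := f2X_le n₀ i
  have h2 : (0 : ℝ) ≤ f2X n₀ i := Nat.cast_nonneg _
  calc (5 * (f2X n₀ i : ℝ)) ^ 2 ≤ (10 * Real.exp ((2 : ℝ) ^ (n₀ + i) / 500)) ^ 2 := by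
        apply pow_le_pow_left₀ (by positivity)
        linarith
    _ = 100 * Real.exp (2 * (2 : ℝ) ^ (n₀ + i) / 500) := by
        rw [mul_pow, ← Real.exp_nat_mul]
        norm_num
        ring_nf

theorem f2_prod (n₀ i : ℕ) : ∏ l ∈ Finset.range (i + 1), (5 * (f2X n₀ l : ℝ)) ^ 2 ≤
    100 ^ (i + 1) * Real.exp (4 * (2 : ℝ) ^ (n₀ + i) / 500) := by
  induction i with
  | zero =>
    rw [Finset.prod_range_one]
    refine (f2_sq n₀ 0).trans ?_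
    rw [zero_add, pow_one]
    apply mul_le_mul_of_nonneg_left _ (by norm_num)
    apply Real.exp_le_exp.mpr
    have : (0 : ℝ) < 2 ^ (n₀ + 0) := by positivity
    linarith
  | succ i ih =>
    rw [Finset.prod_range_succ]
    calc (∏ l ∈ Finset.range (i + 1), (5 * (f2X n₀ l : ℝ)) ^ 2) * (5 * (f2X n₀ (i + 1) : ℝ)) ^ 2
        ≤ (100 ^ (i + 1) * Real.exp (4 * (2 : ℝ) ^ (n₀ + i) / 500)) *
          (100 * Real.exp (2 * (2 : ℝ) ^ (n₀ + (i + 1)) / 500)) :=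
          mul_le_mul ih (f2_sq n₀ (i + 1)) (by positivity) (by positivity)
      _ = 100 ^ (i + 1 + 1) * (Real.exp (4 * (2 : ℝ) ^ (n₀ + i) / 500) *
          Real.exp (2 * (2 : ℝ) ^ (n₀ + (i + 1)) / 500)) := by ring
      _ = 100 ^ (i + 1 + 1) * Real.exp (4 * (2 : ℝ) ^ (n₀ + (i + 1)) / 500) := by
          rw [← Real.exp_add]
          congr 2
          rw [← add_assoc, pow_succ]
          ring

theorem f2_fin (X P2 E K R : ℝ) (hX : 10 * X ^ 2 ≤ 40 * E ^ 2) (hP : P2 ≤ K * E ^ 8)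
    (hP0 : 0 ≤ P2) (hK : 1 ≤ K * E ^ 8) (hE : 1 ≤ E) (hKR : 80 * K ≤ R) :
    10 * X ^ 2 * (1 + P2) ≤ R * E ^ 10 := by
  have h1 : 1 + P2 ≤ 2 * (K * E ^ 8) := by linarith
  have h2 : 10 * X ^ 2 * (1 + P2) ≤ (40 * E ^ 2) * (2 * (K * E ^ 8)) :=
    mul_le_mul hX h1 (by linarith) (by positivity)
  have h3 : (40 * E ^ 2) * (2 * (K * E ^ 8)) = 80 * K * E ^ 10 := by ring
  have h4 : 80 * K * E ^ 10 ≤ R * E ^ 10 := mul_le_mul_of_nonneg_right hKR (by positivity)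
  linarith

theorem f2_e (i : ℕ) : ((100 : ℝ) ^ (i + 1)) ^ 2 = (10000 : ℝ) ^ (i + 1) := by
  rw [← pow_mul, mul_comm, pow_mul]
  norm_num

theorem f2_num (i : ℕ) (y : ℝ) (hy : (4096 : ℝ) * (i + 1) ≤ y) :
    80 * (10000 : ℝ) ^ (i + 1) ≤ Real.exp (y / 200) := by
  have he : (2.7 : ℝ) ≤ Real.exp 1 := by
    have := Real.exp_one_gt_d9
    linarith
  have h5 : (80 : ℝ) ≤ Real.exp 5 := by
    have h6 : Real.exp 5 = Real.exp 1 ^ 5 := by
      rw [← Real.exp_nat_mul]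
      norm_num
    rw [h6]
    calc (80 : ℝ) ≤ 2.7 ^ 5 := by norm_num
      _ ≤ Real.exp 1 ^ 5 := pow_le_pow_left₀ (by norm_num) he 5
  have h10 : (10000 : ℝ) ≤ Real.exp 10 := by
    have h6 : Real.exp 10 = Real.exp 1 ^ 10 := by
      rw [← Real.exp_nat_mul]
      norm_num
    rw [h6]
    calc (10000 : ℝ) ≤ 2.7 ^ 10 := by norm_num
      _ ≤ Real.exp 1 ^ 10 := pow_le_pow_left₀ (by norm_num) he 10
  have h7 : 80 * (10000 : ℝ) ^ (i + 1) ≤ Real.exp 5 * Real.exp 10 ^ (i + 1) :=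
    mul_le_mul h5 (pow_le_pow_left₀ (by norm_num) h10 _) (by positivity) (Real.exp_pos _).le
  have h8 : Real.exp 5 * Real.exp 10 ^ (i + 1) = Real.exp (5 + 10 * ((i : ℝ) + 1)) := by
    rw [← Real.exp_nat_mul, ← Real.exp_add]
    congr 1
    push_cast
    ring
  rw [h8] at h7
  refine h7.trans (Real.exp_le_exp.mpr ?_)
  have : (0 : ℝ) ≤ i := Nat.cast_nonneg _
  linarith

theorem f2_main (C : ℝ) (n₀ i : ℕ) (hn12 : 12 ≤ n₀) (hnC : 2000 * |C| ≤ (n₀ : ℝ)) :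
    2 * (C * Real.exp (1 / 1000 * ((2 ^ (n₀ + i) : ℕ) : ℝ))) < f2X n₀ i ∧
    10 * (f2X n₀ i : ℝ) ^ 2 *
      (1 + (∏ l ∈ Finset.range (i + 1), (5 * (f2X n₀ l : ℝ)) ^ 2) ^ 2) ≤
      Real.exp (2 ^ (n₀ + i) / 40) := by
  have h2n : (n₀ : ℝ) ≤ (2 : ℝ) ^ n₀ := by exact_mod_cast (Nat.lt_two_pow_self (n := n₀)).le
  have h4096 : (4096 : ℝ) ≤ (2 : ℝ) ^ n₀ := by
    calc (4096 : ℝ) = 2 ^ 12 := by norm_num
      _ ≤ 2 ^ n₀ := pow_le_pow_right₀ (by norm_num) hn12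
  have h2i : ((i : ℝ) + 1) ≤ (2 : ℝ) ^ i := by
    have := Nat.lt_two_pow_self (n := i)
    exact_mod_cast this
  have hy1 : (4096 : ℝ) * (i + 1) ≤ 2 ^ (n₀ + i) := by
    rw [pow_add]
    exact mul_le_mul h4096 h2i (by positivity) (by positivity)
  have hy2 : (2 : ℝ) ^ n₀ ≤ 2 ^ (n₀ + i) := pow_le_pow_right₀ (by norm_num) (by omega)
  have hX1 := f2X_ge n₀ i
  have hX2 := f2X_le n₀ i
  have hX0 : (0 : ℝ) ≤ f2X n₀ i := Nat.cast_nonneg _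
  have hpr := f2_prod n₀ i
  have hP0 : 0 ≤ ∏ l ∈ Finset.range (i + 1), (5 * (f2X n₀ l : ℝ)) ^ 2 :=
    Finset.prod_nonneg (fun _ _ => by positivity)
  have hcast : ((2 ^ (n₀ + i) : ℕ) : ℝ) = (2 : ℝ) ^ (n₀ + i) := by push_cast; rfl
  rw [hcast]
  generalize (2 : ℝ) ^ (n₀ + i) = y at *
  generalize (f2X n₀ i : ℝ) = X at *
  generalize ∏ l ∈ Finset.range (i + 1), (5 * (f2X n₀ l : ℝ)) ^ 2 = P at *
  have hy0 : (0 : ℝ) < y := by linarith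
  constructor
  · have h1 : 2 * C < Real.exp (y / 1000) := by
      have h2 := Real.add_one_le_exp (y / 1000)
      have h3 : C ≤ |C| := le_abs_self C
      linarith
    refine lt_of_lt_of_le ?_ hX1
    have h3 : Real.exp (y / 500) = Real.exp (y / 1000) * Real.exp (1 / 1000 * y) := by
      rw [← Real.exp_add]
      congr 1
      ring
    rw [h3, ← mul_assoc]
    exact mul_lt_mul_of_pos_right h1 (Real.exp_pos _)
  · have h3 := f2_num i y hy1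
    have h4 : Real.exp (y / 40) = Real.exp (y / 200) * Real.exp (y / 500) ^ 10 := by
      rw [← Real.exp_nat_mul, ← Real.exp_add]
      congr 1
      push_cast
      ring
    have hE1 : 1 ≤ Real.exp (y / 500) := Real.one_le_exp (by positivity)
    have hE4 : Real.exp (4 * y / 500) = Real.exp (y / 500) ^ 4 := by
      rw [← Real.exp_nat_mul]
      congr 1
      push_cast
      ring
    rw [hE4] at hpr
    rw [h4]
    generalize Real.exp (y / 500) = E at *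
    have h1 : P ^ 2 ≤ (10000 : ℝ) ^ (i + 1) * E ^ 8 := by
      have h5 := pow_le_pow_left₀ hP0 hpr 2
      rw [mul_pow, f2_e, ← pow_mul] at h5
      exact h5
    have hA1 : (1 : ℝ) ≤ (10000 : ℝ) ^ (i + 1) * E ^ 8 :=
      one_le_mul_of_one_le_of_one_le (one_le_pow₀ (by norm_num)) (one_le_pow₀ hE1)
    have h2 : 10 * X ^ 2 ≤ 40 * E ^ 2 := by
      have h6 := pow_le_pow_left₀ hX0 hX2 2
      rw [mul_pow] at h6
      linarith
    exact f2_fin X (P ^ 2) E _ _ h2 h1 (sq_nonneg P) hA1 hE1 h3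

theorem st_F2 : ST_F2 := by
  intro C
  obtain ⟨n₀, hn12, hnC⟩ : ∃ n₀ : ℕ, 12 ≤ n₀ ∧ 2000 * |C| ≤ (n₀ : ℝ) :=
    ⟨max 12 ⌈2000 * |C|⌉₊, le_max_left _ _,
      (Nat.le_ceil _).trans (by exact_mod_cast le_max_right _ _)⟩
  refine ⟨n₀, f2X n₀, ?_, fun i => f2_main C n₀ i hn12 hnC⟩
  intro i
  exact Nat.one_le_iff_ne_zero.mpr (Nat.ceil_pos.mpr (Real.exp_pos _)).ne'

end Pool.Agent.Helper61.RG
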