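import Pool.Agent.Helper13.RG.Stmts

/-!
# CLO: a dense embedding of a number field in a finite extension of `ℚ_p`
-/

set_option autoImplicit false

namespace Pool.Agent.Helper13.RG

open Pool.Agent.Helper14.BSC Pool.Agent.Helper13.ZL

theorem st_CLO : ST_CLO := by
  classical
  intro k _ _ p _ σ
  set T : Set ℂ_[p] := Set.range σ with hT
  have halg : ∀ x ∈ T, IsAlgebraic ℚ_[p] x := by
    rintro x ⟨a, rfl⟩
    have h1 : IsIntegral ℚ a := Algebra.IsIntegral.isIntegral a
    have h2 : IsIntegral ℚ (σ a) := h1.map σ.toRatAlgHom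
    exact (h2.tower_top (A := ℚ_[p])).isAlgebraic
  have hsub : (Algebra.adjoin ℚ_[p] T : Subalgebra ℚ_[p] ℂ_[p]).toSubmodule = Submodule.span ℚ_[p] T := by
    rw [Algebra.adjoin_eq_span]
    congr 1
    apply le_antisymm
    · intro x hx
      have h1 : Submonoid.closure T ≤ MonoidHom.mrange (σ : k →* ℂ_[p]) := by
        rw [Submonoid.closure_le]
        rintro y ⟨a, rfl⟩
        exact ⟨a, rfl⟩
      obtain ⟨a, ha⟩ := h1 hx
      exact ⟨a, ha⟩
    · exact Submonoid.subset_closure
  have hE : (IntermediateField.adjoin ℚ_[p] T).toSubalgebra = Algebra.adjoin ℚ_[p] T :=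
    IntermediateField.adjoin_toSubalgebra_of_isAlgebraic halg
  have hmem : ∀ z, z ∈ IntermediateField.adjoin ℚ_[p] T ↔ z ∈ Submodule.span ℚ_[p] T := by
    intro z
    rw [← hsub, Subalgebra.mem_toSubmodule, ← hE, IntermediateField.mem_toSubalgebra]
  refine ⟨IntermediateField.adjoin ℚ_[p] T, ?_, ?_, ?_⟩
  · have hfin : (Submodule.span ℚ_[p] T).FG := by
      obtain ⟨s, hs⟩ := (Module.finite_def (R := ℚ) (M := k)).1 inferInstance
      refine ⟨s.image σ, ?_⟩
      apply le_antisymm
      · apply Submodule.span_mono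
        intro x hx
        simp only [Finset.coe_image, Set.mem_image] at hx
        obtain ⟨a, _, rfl⟩ := hx
        exact ⟨a, rfl⟩
      · rw [Submodule.span_le]
        rintro x ⟨a, rfl⟩
        have ha : a ∈ Submodule.span ℚ (s : Set k) := by rw [hs]; trivial
        induction ha using Submodule.span_induction with
        | mem x hx => exact Submodule.subset_span (by simp only [Finset.coe_image]; exact ⟨x, hx, rfl⟩)
        | zero => rw [map_zero]; exact Submodule.zero_mem _
        | add x y _ _ hx hy => rw [map_add]; exact Submodule.add_mem _ hx hy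
        | smul c x _ hx =>
          have h3 : σ (c • x) = ((c : ℚ_[p])) • σ x := by
            rw [Algebra.smul_def, map_mul, Algebra.smul_def]
            congr 1
            rw [eq_ratCast, map_ratCast, map_ratCast]
          rw [h3]
          exact Submodule.smul_mem _ _ hx
    have h5 : (IntermediateField.adjoin ℚ_[p] T).toSubmodule = Submodule.span ℚ_[p] T := by
      ext z
      exact hmem z
    have h6 : (IntermediateField.adjoin ℚ_[p] T).toSubmodule.FG := by rw [h5]; exact hfin
    exact Module.Finite.iff_fg.2 h6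
  · intro x
    exact IntermediateField.subset_adjoin _ _ ⟨x, rfl⟩
  · intro z hz
    rw [hmem] at hz
    induction hz using Submodule.span_induction with
    | mem x hx =>
      obtain ⟨a, rfl⟩ := hx
      intro δ hδ
      exact ⟨a, by rw [sub_self, norm_zero]; exact hδ⟩
    | zero =>
      intro δ hδ
      exact ⟨0, by rw [map_zero, sub_self, norm_zero]; exact hδ⟩
    | add x y _ _ hx hy =>
      intro δ hδ
      obtain ⟨a, ha⟩ := hx (δ / 2) (by linarith)
      obtain ⟨b, hb⟩ := hy (δ / 2) (by linarith)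
      refine ⟨a + b, ?_⟩
      have h1 : σ (a + b) - (x + y) = (σ a - x) + (σ b - y) := by rw [map_add]; ring
      rw [h1]
      calc _ ≤ ‖σ a - x‖ + ‖σ b - y‖ := norm_add_le _ _
        _ < δ := by linarith
    | smul c x _ hx =>
      intro δ hδ
      have hd := Padic.denseRange_ratCast p
      have hpos : 0 < δ / (2 * (‖x‖ + 1)) := by positivity
      obtain ⟨r, hr⟩ := hd.exists_dist_lt c hpos
      rw [dist_eq_norm] at hr
      have hpos2 : 0 < δ / (2 * (‖(r : ℚ_[p])‖ + 1)) := by positivity
      obtain ⟨a, ha⟩ := hx _ hpos2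
      refine ⟨r * a, ?_⟩
      have h1 : σ (r * a) - c • x = (r : ℚ_[p]) • (σ a - x) - (c - (r : ℚ_[p])) • x := by
        have h3 : σ ((r : k) * a) = ((r : ℚ_[p])) • σ a := by
          rw [map_mul, Algebra.smul_def, map_ratCast, map_ratCast]
        rw [h3, smul_sub, sub_smul]
        ring
      rw [h1]
      have h7 : ‖(r : ℚ_[p]) • (σ a - x)‖ < δ / 2 := by
        rw [norm_smul]
        have h8 : ‖(r : ℚ_[p])‖ * ‖σ a - x‖ ≤ (‖(r : ℚ_[p])‖ + 1) * ‖σ a - x‖ := by
          apply mul_le_mul_of_nonneg_right _ (norm_nonneg _)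
          linarith
        have h9 : (‖(r : ℚ_[p])‖ + 1) * ‖σ a - x‖ < (‖(r : ℚ_[p])‖ + 1) * (δ / (2 * (‖(r : ℚ_[p])‖ + 1))) := by
          apply mul_lt_mul_of_pos_left ha
          positivity
        have h10 : (‖(r : ℚ_[p])‖ + 1) * (δ / (2 * (‖(r : ℚ_[p])‖ + 1))) = δ / 2 := by
          field_simp
        linarith
      have h8 : ‖(c - (r : ℚ_[p])) • x‖ ≤ δ / 2 := by
        rw [norm_smul]
        have h9 : ‖c - (r : ℚ_[p])‖ * ‖x‖ ≤ δ / (2 * (‖x‖ + 1)) * (‖x‖ + 1) := by
          apply mul_le_mul hr.le (by linarith) (norm_nonneg _) hpos.le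
        have h10 : δ / (2 * (‖x‖ + 1)) * (‖x‖ + 1) = δ / 2 := by
          field_simp
        linarith
      calc _ ≤ ‖(r : ℚ_[p]) • (σ a - x)‖ + ‖(c - (r : ℚ_[p])) • x‖ := norm_sub_le _ _
        _ < δ := by linarith

end Pool.Agent.Helper13.RG
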